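import Mathlib

namespace Pool.Agent.H.MP_3b7dc8_lc

open Finset Filter Topology

/-- Vertex kinds: owned by a player, stochastic, or terminal. -/
inductive Kind (P : Type) : Type
  | player (i : P)
  | random
  | terminal

/-- `f` is a probability distribution on the out-neighbours of `u`. -/
def IsDist {V : Type} [Fintype V] (E : V → V → Prop) (u : V) (f : V → ℝ) : Prop :=
  (∀ v, 0 ≤ f v) ∧ (∀ v, ¬ E u v → f v = 0) ∧ ∑ v, f v = 1

/-- Turn-based stochastic game with vertex set `V` and player set `P`. -/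
structure Game (V P : Type) [Fintype V] where
  edge : V → V → Prop
  kind : V → Kind P
  prob : V → V → ℚ
  rew : V → P → ℚ
  init : V
  prob_ok : ∀ u, kind u = .random → IsDist edge u fun v => prob u v
  rew_ok : ∀ t i, 0 ≤ rew t i ∧ rew t i ≤ 1
  out : ∀ u i, kind u = .player i → ∃ v, edge u v

variable {V P : Type} [Fintype V] (G : Game V P)

namespace Game

/-- A behavioural profile: after history `h`, at `u`, the owner moves by distribution `σ h u`. -/
def Strat (σ : List V → V → V → ℝ) : Prop :=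
  ∀ h u i, G.kind u = .player i → IsDist G.edge u (σ h u)

/-- Expected reward of player `i` from a terminal reached within the next `n` vertices. -/
noncomputable def pay (σ : List V → V → V → ℝ) (i : P) : ℕ → List V → V → ℝ
  | 0, _, _ => 0
  | n + 1, h, u => match G.kind u with
    | .terminal => G.rew u i
    | .random => ∑ v, G.prob u v * pay σ i n (u :: h) v
    | .player _ => ∑ v, σ h u v * pay σ i n (u :: h) v

/-- Expected payoff (`0` on plays that never reach a terminal). -/
noncomputable def E (σ : List V → V → V → ℝ) (i : P) : ℝ := ⨆ n, G.pay σ i n [] G.init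

/-- The stationary profile `s` is an `ε`-Nash equilibrium (against arbitrary history-dependent
randomized unilateral deviations). -/
def IsNE (ε : ℝ) (s : V → V → ℝ) : Prop :=
  G.Strat (fun _ => s) ∧ ∀ i τ, G.Strat τ → (∀ h u, G.kind u ≠ .player i → τ h u = s u) →
    G.E τ i ≤ G.E (fun _ => s) i + ε

variable {G} {σ : List V → V → V → ℝ} {i : P}

theorem pay_le (hσ : G.Strat σ) {W : V → ℝ} (h0 : ∀ u, 0 ≤ W u)
    (h1 : ∀ u, G.kind u = .terminal → G.rew u i ≤ W u)
    (h2 : ∀ u, G.kind u = .random → ∑ v, G.prob u v * W v ≤ W u)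
    (h3 : ∀ h u j, G.kind u = .player j → ∑ v, σ h u v * W v ≤ W u) (n : ℕ) (h : List V) (u : V) :
    G.pay σ i n h u ≤ W u := by
  induction n generalizing h u with
  | zero => exact h0 u
  | succ n ih =>
    rw [pay]
    split
    · exact h1 u ‹_›
    · exact (sum_le_sum fun v _ =>
        mul_le_mul_of_nonneg_left (ih _ v) ((G.prob_ok u ‹_›).1 v)).trans (h2 u ‹_›)
    · exact (sum_le_sum fun v _ =>
        mul_le_mul_of_nonneg_left (ih _ v) ((hσ h u _ ‹_›).1 v)).trans (h3 h u _ ‹_›)

theorem pay_le_one (hσ : G.Strat σ) (n : ℕ) (h : List V) (u : V) : G.pay σ i n h u ≤ 1 :=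
  pay_le (W := fun _ => 1) hσ (fun _ => zero_le_one) (fun u _ => by exact_mod_cast (G.rew_ok u i).2)
    (fun u hu => by simpa using (G.prob_ok u hu).2.2.le)
    (fun h u j hu => by simpa using (hσ h u j hu).2.2.le) n h u

theorem pay_mono (hσ : G.Strat σ) (n : ℕ) (h : List V) (u : V) :
    0 ≤ G.pay σ i n h u ∧ G.pay σ i n h u ≤ G.pay σ i (n + 1) h u := by
  induction n generalizing h u with
  | zero =>
    refine ⟨le_rfl, ?_⟩
    rw [pay, pay]
    split
    · exact_mod_cast (G.rew_ok u i).1
    · simp [pay]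
    · simp [pay]
  | succ n ih =>
    rw [pay, pay]
    split
    · exact ⟨by exact_mod_cast (G.rew_ok u i).1, le_rfl⟩
    · have := (G.prob_ok u ‹_›).1
      exact ⟨sum_nonneg fun v _ => mul_nonneg (this v) (ih _ v).1,
        sum_le_sum fun v _ => mul_le_mul_of_nonneg_left (ih _ v).2 (this v)⟩
    · have := (hσ h u _ ‹_›).1
      exact ⟨sum_nonneg fun v _ => mul_nonneg (this v) (ih _ v).1,
        sum_le_sum fun v _ => mul_le_mul_of_nonneg_left (ih _ v).2 (this v)⟩

theorem pay_stat (s : V → V → ℝ) (n : ℕ) (h : List V) (u : V) :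
    G.pay (fun _ => s) i n h u = G.pay (fun _ => s) i n [] u := by
  induction n generalizing h u with
  | zero => rfl
  | succ n ih =>
    rw [pay, pay]
    split
    · rfl
    · simp only [ih (u :: h), ih [u]]
    · simp only [ih (u :: h), ih [u]]

theorem val {s : V → V → ℝ} (hs : G.Strat fun _ => s) (i : P) : ∃ w : V → ℝ,
    G.E (fun _ => s) i = w G.init ∧ (∀ u, 0 ≤ w u ∧ w u ≤ 1) ∧
    (∀ u, G.kind u = .terminal → w u = G.rew u i) ∧
    (∀ u, G.kind u = .random → w u = ∑ v, G.prob u v * w v) ∧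
    ∀ u j, G.kind u = .player j → w u = ∑ v, s u v * w v := by
  have b : ∀ u, BddAbove (Set.range fun n => G.pay (fun _ => s) i n [] u) := fun u =>
    ⟨1, by rintro _ ⟨n, rfl⟩; exact pay_le_one hs n _ u⟩
  have t : ∀ u, Tendsto (fun n => G.pay (fun _ => s) i n [] u) atTop
      (𝓝 (⨆ n, G.pay (fun _ => s) i n [] u)) := fun u =>
    tendsto_atTop_ciSup (monotone_nat_of_le_succ fun n => (pay_mono hs n _ u).2) (b u)
  refine ⟨fun u => ⨆ n, G.pay (fun _ => s) i n [] u, rfl,
    fun u => ⟨le_ciSup (b u) 0, ciSup_le fun n => pay_le_one hs n _ u⟩, fun u hu => ?_,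
    fun u hu => ?_, fun u j hu => ?_⟩
  all_goals refine tendsto_nhds_unique ((t u).comp (tendsto_add_atTop_nat 1)) ?_
  all_goals simp only [Function.comp_def, pay, hu, pay_stat s _ [u]]
  · exact tendsto_const_nhds
  · exact tendsto_finset_sum _ fun v _ => (t v).const_mul _
  · exact tendsto_finset_sum _ fun v _ => (t v).const_mul _

end Game

/-- Binary length of a rational number (sign, numerator, denominator). -/
def bits (q : ℚ) : ℕ := q.num.natAbs.size + q.den.size + 1

/-- Input size: tables of edges and probabilities, of owners and rewards, constraints and `ε`. -/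
def size [Fintype P] (x y : P → ℚ) (ε : ℚ) : ℕ :=
  ∑ u, ∑ v, (1 + bits (G.prob u v)) + ∑ u, ∑ i, (1 + bits (G.rew u i)) +
    ∑ i, (bits (x i) + bits (y i)) + bits ε

theorem bits_inv (b : ℕ) : bits (b : ℚ)⁻¹ ≤ b + 3 := by
  have h : ∀ k : ℕ, k.size ≤ k := fun k => Nat.size_le.2 Nat.lt_two_pow_self
  have h1 := h (b : ℚ)⁻¹.num.natAbs
  have h2 := h (b : ℚ)⁻¹.den
  have h3 : (b : ℚ)⁻¹.num.natAbs ≤ 1 := by
    rw [Rat.inv_natCast_num]
    cases b <;> simp [Int.sign]
  have h4 : (b : ℚ)⁻¹.den ≤ b + 1 := by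
    rw [Rat.inv_natCast_den]
    split_ifs <;> omega
  unfold bits
  omega

theorem poly_lt (p : Polynomial ℕ) : ∃ n, 1 ≤ n ∧ p.eval n < 2 ^ n := by
  have : Tendsto (fun n : ℕ => ((p.eval n : ℕ) : ℝ) / 2 ^ n) atTop (𝓝 0) := by
    induction p using Polynomial.induction_on' with
    | add p q hp hq => simpa [add_div] using hp.add hq
    | monomial k a =>
      simpa [mul_div_assoc] using
        (tendsto_pow_const_div_const_pow_of_one_lt k (one_lt_two (α := ℝ))).const_mul (a : ℝ)
  obtain ⟨n, h1, h2⟩ := ((this.eventually (gt_mem_nhds one_pos)).and (eventually_ge_atTop 1)).exists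
  rw [div_lt_one (by positivity)] at h1
  exact ⟨n, h2, by exact_mod_cast h1⟩

theorem eval_mono (p : Polynomial ℕ) {a b : ℕ} (h : a ≤ b) : p.eval a ≤ p.eval b := by
  induction p using Polynomial.induction_on' with
  | add p q hp hq => simpa using add_le_add hp hq
  | monomial k c => simpa using Nat.mul_le_mul_left c (Nat.pow_le_pow_left h k)

end Pool.Agent.H.MP_3b7dc8_lc
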