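import Pool.Agent.H.MP_3b7dc8_lc.A

namespace Pool.Agent.H.MP_3b7dc8_lc

open Finset

abbrev X (n : ℕ) := Fin (n + 1) × Fin 11
abbrev Pl (n : ℕ) := Fin (n + 1) × Fin 5

variable {n : ℕ}

def a (x : X n) : X n := (if x.2 = 6 then x.1 + 1 else if x.2 = 7 then x.1 - 1 else x.1,
  ![1, 2, 3, 4, 0, 2, 2, 0, 0, 0, 0] x.2)

def b (x : X n) : X n := (x.1, ![5, 6, 8, 7, 9, 10, 10, 10, 0, 0, 0] x.2)

def own (x : X n) : Pl n :=
  (if x.2 = 3 then x.1 - 1 else x.1, ![4, 0, 4, 0, 4, 1, 1, 1, 4, 4, 4] x.2)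

def rn (x : X n) (q : Pl n) : ℕ :=
  if q.2 = 0 then
    if q.1 = Fin.last n then 0
    else if (x.1 = q.1 + 1 ∧ x.2 = 8) ∨ ((x.1 = q.1 ∨ x.1 = q.1 + 1) ∧ x.2 = 10) then 1
    else if x.1 = q.1 then 2 else 0
  else if x.1 = q.1 ∧ x.2 = ![0, 10, 9, 8, 0] q.2 then 1 else 0

theorem ab {x : X n} (h : x.2 < 8) : a x ≠ b x := fun e => by
  have := congrArg Prod.snd e
  simp only [a, b] at this
  revert this h
  generalize x.2 = t
  revert t
  decide

def pn : Option (X n) → Option (X n) → ℕ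
  | none, some x => if x.2 = 0 then n + 1 else 0
  | _, _ => 0

theorem pn_sum (W : Option (X n) → ℝ) :
    ∑ v, (((pn none v : ℚ)⁻¹ : ℚ) : ℝ) * W v = (∑ l, W (some (l, 0))) / (n + 1) := by
  rw [Fintype.sum_option, Fintype.sum_prod_type, sum_div]
  simp [pn, apply_ite, ite_mul, div_eq_inv_mul]

def GG (n : ℕ) : Game (Option (X n)) (Pl n) where
  edge u v := match u with
    | none => ∃ l, v = some (l, 0)
    | some x => x.2 < 8 ∧ (v = some (a x) ∨ v = some (b x))
  kind u := match u with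
    | none => .random
    | some x => if x.2 < 8 then .player (own x) else .terminal
  prob u v := (pn u v : ℚ)⁻¹
  rew u q := ((u.elim 0 fun x => rn x q : ℕ) : ℚ)⁻¹
  init := none
  prob_ok u h := by
    cases u with
    | some x => by_cases h1 : x.2 < 8 <;> simp [h1] at h
    | none =>
      refine ⟨fun v => by positivity, fun v hv => ?_, ?_⟩
      · cases v with
        | none => simp [pn]
        | some x => simp [pn, show x.2 ≠ 0 from fun h => hv ⟨x.1, by rw [← h]⟩]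
      · have := pn_sum (n := n) fun _ => 1
        simp only [mul_one] at this
        rw [this]
        simp
        positivity
  rew_ok t i := ⟨by positivity, Nat.cast_inv_le_one _⟩
  out u i h := by
    cases u with
    | none => simp at h
    | some x =>
      refine ⟨some (a x), ?_, Or.inl rfl⟩
      by_contra h1
      simp [h1] at h

theorem kd {x : X n} (h : x.2 < 8) : (GG n).kind (some x) = .player (own x) := if_pos h

theorem kd' {x : X n} (h : ¬ x.2 < 8) : (GG n).kind (some x) = .terminal := if_neg h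

theorem kd_iff {u : Option (X n)} {i : Pl n} (h : (GG n).kind u = .player i) :
    ∃ x, u = some x ∧ x.2 < 8 ∧ own x = i := by
  cases u with
  | none => simp [GG] at h
  | some x =>
    by_cases h1 : x.2 < 8
    · exact ⟨x, rfl, h1, by simpa [kd h1] using h⟩
    · simp [kd' h1] at h

theorem two {x : X n} (h : x.2 < 8) {f : Option (X n) → ℝ} (hf : IsDist (GG n).edge (some x) f) :
    (0 ≤ f (some (b x)) ∧ f (some (b x)) ≤ 1) ∧ ∀ W : Option (X n) → ℝ, ∑ v, f v * W v =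
      (1 - f (some (b x))) * W (some (a x)) + f (some (b x)) * W (some (b x)) := by
  have e : ∀ W : Option (X n) → ℝ, ∑ v, f v * W v =
      f (some (a x)) * W (some (a x)) + f (some (b x)) * W (some (b x)) := fun W => by
    rw [← sum_pair (f := fun v => f v * W v) (by simpa using ab h)]
    refine (sum_subset (subset_univ _) fun v _ hv => ?_).symm
    rw [hf.2.1 v fun h => hv (by simpa using h.2), zero_mul]
  have e1 := e fun _ => 1
  simp only [mul_one, hf.2.2] at e1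
  refine ⟨⟨hf.1 _, by linarith [hf.1 (some (a x))]⟩, fun W => ?_⟩
  rw [e, e1]
  ring

noncomputable def mk (g : X n → ℝ) : Option (X n) → Option (X n) → ℝ
  | none, _ => 0
  | some x, v => if v = some (b x) then g x else if v = some (a x) then 1 - g x else 0

theorem mk_b (g : X n → ℝ) (x : X n) : mk g (some x) (some (b x)) = g x := if_pos rfl

theorem mk_strat {g : X n → ℝ} (hg : ∀ x, 0 ≤ g x ∧ g x ≤ 1) : (GG n).Strat fun _ => mk g := by
  intro _ u i h
  obtain ⟨x, rfl, h1, -⟩ := kd_iff h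
  have := hg x
  refine ⟨fun v => ?_, fun v hv => ?_, ?_⟩
  · simp only [mk]
    split_ifs <;> linarith
  · simp only [mk]
    rw [if_neg fun h => hv ⟨h1, Or.inr h⟩, if_neg fun h => hv ⟨h1, Or.inl h⟩]
  · rw [← sum_subset (subset_univ {some (a x), some (b x)}) fun v _ hv => by
      simp only [mem_insert, mem_singleton, not_or] at hv
      simp [mk, hv], sum_pair (by simpa using ab h1)]
    simp [mk, ab h1]

def Sol (g : X n → ℝ) (q : Pl n) (w : X n → ℝ) : Prop :=
  (∀ x, 0 ≤ w x ∧ w x ≤ 1) ∧ (∀ x, ¬ x.2 < 8 → w x = (rn x q : ℝ)⁻¹) ∧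
    ∀ x, x.2 < 8 → w x = (1 - g x) * w (a x) + g x * w (b x)

theorem sol {s : Option (X n) → Option (X n) → ℝ} (hs : (GG n).Strat fun _ => s) (q : Pl n) :
    ∃ w, Sol (fun x => s (some x) (some (b x))) q w ∧
      (GG n).E (fun _ => s) q = (∑ l, w (l, 0)) / (n + 1) := by
  obtain ⟨w, h1, h2, h3, h4, h5⟩ := Game.val hs q
  refine ⟨fun x => w (some x), ⟨fun x => h2 _, fun x h => ?_, fun x h => ?_⟩, ?_⟩
  · simpa [GG] using h3 _ (kd' h)
  · exact (h5 _ _ (kd h)).trans ((two h (hs [] _ _ (kd h))).2 w)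
  · exact h1.trans ((h4 _ rfl).trans (pn_sum w))

theorem dev {ε : ℝ} {s : Option (X n) → Option (X n) → ℝ} (hs : (GG n).IsNE ε s) (q : Pl n) :
    ∃ w, Sol (fun x => if own x = q then 1 else s (some x) (some (b x))) q w ∧
      (∑ l, w (l, 0)) / (n + 1) ≤ (GG n).E (fun _ => s) q + ε := by
  classical
  let s' := fun u => if (GG n).kind u = .player q then mk (fun _ => 1) u else s u
  have h1 : (GG n).Strat fun _ => s' := fun h u i hu => by
    simp only [s']
    split_ifs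
    · exact mk_strat (fun _ => ⟨zero_le_one, le_rfl⟩) h u i hu
    · exact hs.1 h u i hu
  obtain ⟨w, h2, h3⟩ := sol h1 q
  refine ⟨w, ⟨h2.1, h2.2.1, fun x h => ?_⟩, h3 ▸ hs.2 q _ h1 fun _ u hu => if_neg hu⟩
  rw [h2.2.2 x h]
  simp only [s', kd h, Kind.player.injEq]
  split_ifs
  · rw [mk_b]
  · rfl

theorem sup {s : Option (X n) → Option (X n) → ℝ} {q : Pl n}
    {τ : List (Option (X n)) → Option (X n) → Option (X n) → ℝ} (hτ : (GG n).Strat τ)
    (e : ∀ h u, (GG n).kind u ≠ .player q → τ h u = s u) (W : X n → ℝ) (h0 : ∀ x, 0 ≤ W x)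
    (h1 : ∀ x, ¬ x.2 < 8 → (rn x q : ℝ)⁻¹ ≤ W x)
    (h2 : ∀ x, x.2 < 8 → if own x = q then W (a x) ≤ W x ∧ W (b x) ≤ W x else
      (1 - s (some x) (some (b x))) * W (a x) + s (some x) (some (b x)) * W (b x) ≤ W x) :
    (GG n).E τ q ≤ (∑ l, W (l, 0)) / (n + 1) := by
  refine ciSup_le fun k => Game.pay_le (W := fun u => u.elim ((∑ l, W (l, 0)) / (n + 1)) W) hτ
    (fun u => ?_) (fun u hu => ?_) (fun u hu => ?_) (fun h u j hu => ?_) k _ _
  · cases u with
    | none => exact div_nonneg (sum_nonneg fun _ _ => h0 _) (by positivity)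
    | some x => exact h0 x
  · cases u with
    | none => simp [GG] at hu
    | some x => simpa [GG] using h1 x fun h => by simp [kd h] at hu
  · cases u with
    | none => exact (pn_sum _).le
    | some x => by_cases h1 : x.2 < 8 <;> simp [GG, h1] at hu
  · obtain ⟨x, rfl, h3, -⟩ := kd_iff hu
    obtain ⟨⟨t1, t2⟩, t3⟩ := two h3 (hτ h _ _ hu)
    have := h2 x h3
    rw [t3]
    simp only [Option.elim]
    split_ifs at this with h4
    · nlinarith [this.1, this.2]
    · rwa [e h _ (by simpa [kd h3] using h4)]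

theorem Sol.eqs {g w : X n → ℝ} {q : Pl n} (h : Sol g q w) (k : Fin (n + 1)) :
    w (k, 0) = (1 - g (k, 0)) * w (k, 1) + g (k, 0) * w (k, 5) ∧
    w (k, 1) = (1 - g (k, 1)) * w (k, 2) + g (k, 1) * w (k, 6) ∧
    w (k, 2) = (1 - g (k, 2)) * w (k, 3) + g (k, 2) * (rn (k, 8) q : ℝ)⁻¹ ∧
    w (k, 3) = (1 - g (k, 3)) * w (k, 4) + g (k, 3) * w (k, 7) ∧
    w (k, 4) = (1 - g (k, 4)) * w (k, 0) + g (k, 4) * (rn (k, 9) q : ℝ)⁻¹ ∧
    w (k, 5) = (1 - g (k, 5)) * w (k, 2) + g (k, 5) * (rn (k, 10) q : ℝ)⁻¹ ∧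
    w (k, 6) = (1 - g (k, 6)) * w (k + 1, 2) + g (k, 6) * (rn (k, 10) q : ℝ)⁻¹ ∧
    w (k, 7) = (1 - g (k, 7)) * w (k - 1, 0) + g (k, 7) * (rn (k, 10) q : ℝ)⁻¹ := by
  rw [← h.2.1 (k, 8) (by simp), ← h.2.1 (k, 9) (by simp), ← h.2.1 (k, 10) (by simp)]
  exact ⟨h.2.2 (k, 0) (by simp), h.2.2 (k, 1) (by simp), h.2.2 (k, 2) (by simp),
    h.2.2 (k, 3) (by simp), h.2.2 (k, 4) (by simp), h.2.2 (k, 5) (by simp),
    h.2.2 (k, 6) (by simp), h.2.2 (k, 7) (by simp)⟩

end Pool.Agent.H.MP_3b7dc8_lc
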