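import Pool.Agent.H.MP_3b7dc8_lc.B

namespace Pool.Agent.H.MP_3b7dc8_lc

open Finset

variable {n : ℕ}

def yn (q : Pl n) : ℕ := ![n + 1, 0, 2 * (n + 1), 1, 1] q.2

def xn (q : Pl n) : ℕ := ![0, 0, 0, 2 * (n + 1), 0] q.2

theorem ne_succ (hn : 1 ≤ n) (k : Fin (n + 1)) : k + 1 ≠ k := fun h => by
  have : (1 : Fin (n + 1)) = 0 := by simpa using h
  have := congrArg Fin.val this
  rw [Fin.val_one', Nat.mod_eq_of_lt (by omega)] at this
  simp at this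

theorem ne_pred (hn : 1 ≤ n) (k : Fin (n + 1)) : k - 1 ≠ k := fun h =>
  ne_succ hn (k - 1) (by rw [sub_add_cancel, h])

theorem cv {g u v : ℝ} (h : 0 ≤ g ∧ g ≤ 1) (hu : 0 ≤ u ∧ u ≤ 1) (hv : 0 ≤ v) :
    u - g ≤ (1 - g) * u + g * v := by nlinarith [h.1, hu.2, mul_nonneg h.1 hv]

theorem cv1 {g u : ℝ} (h : 0 ≤ g ∧ g ≤ 1) (hu : u ≤ 1) : u ≤ (1 - g) * u + g := by
  nlinarith [h.1]

theorem R3 {y1 y2 y q w1 w5 : ℝ} (p0 : 0 ≤ y1) (p1 : y1 ≤ 2 / 1999) (p2 : y1 ≤ 11 * y2 / 1999)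
    (p3 : 0 ≤ y) (e : q = (1 - y1) * w1 + y1 * w5) (a1 : q + y * (49 / 100) ≤ w1)
    (a2 : q - 21 * y2 ≤ w5) : y ≤ y2 ^ 2 / 2 := by
  have b2 : (1 - y1) * (y * (49 / 100)) ≤ y1 * (21 * y2) := by
    nlinarith [mul_le_mul_of_nonneg_left a1 (by linarith : 0 ≤ 1 - y1),
      mul_le_mul_of_nonneg_left a2 p0]
  have b3 : y1 * (21 * y2) ≤ 11 * y2 / 1999 * (21 * y2) :=
    mul_le_mul_of_nonneg_right p2 (by linarith)
  nlinarith [mul_le_mul_of_nonneg_right p1 p3]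

theorem need (hn : 1 ≤ n) {s : Option (X n) → Option (X n) → ℝ}
    (hs : (GG n).IsNE (1 / 4000 / (n + 1)) s)
    (hx : ∀ q, (xn q : ℝ)⁻¹ - 1 / 4000 / (n + 1) ≤ (GG n).E (fun _ => s) q)
    (hy : ∀ q, (GG n).E (fun _ => s) q ≤ (yn q : ℝ)⁻¹ + 1 / 4000 / (n + 1)) :
    0 < s (some (Fin.last n, 2)) (some (Fin.last n, 8)) ∧
      s (some (Fin.last n, 2)) (some (Fin.last n, 8)) ≤ 2 / 2 ^ 2 ^ n := by
  obtain ⟨g, hg⟩ : ∃ g : X n → ℝ, ∀ x, s (some x) (some (b x)) = g x := ⟨_, fun _ => rfl⟩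
  have m0 : (0 : ℝ) < n + 1 := by positivity
  have g1 : ∀ k (t : Fin 11), t < 8 → 0 ≤ g (k, t) ∧ g (k, t) ≤ 1 := fun k t h =>
    hg _ ▸ (two (x := (k, t)) h (hs.1 [] _ _ (kd h))).1
  have L1 : ∀ k, g (k, 0) ≤ (g (k, 2) + g (k, 4)) / 1999 ∧ g (k, 1) ≤ (g (k, 2) + g (k, 4)) / 1999 ∧
      (1 - g (k, 2)) * g (k, 3) ≤ (g (k, 2) + g (k, 4)) / 1999 := fun k => by
    obtain ⟨w, h1, h2⟩ := dev hs (k, 1)
    have h3 : w (k, 0) ≤ 1 / 2000 := by
      have a1 := single_le_sum (f := fun l => w (l, 0)) (fun l _ => (h1.1 _).1) (mem_univ k)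
      have a2 := hy (k, 1)
      simp only [yn, Matrix.cons_val, Nat.cast_zero, inv_zero, zero_add] at a2
      have := (div_le_div_iff_of_pos_right m0).1 (h2.trans (add_le_add_left a2 _) |>.trans_eq
        (add_div _ _ _).symm)
      linarith
    obtain ⟨e0, e1, e2, e3, e4, e5, e6, e7⟩ := h1.eqs k
    simp [own, rn, hg] at e0 e1 e2 e3 e4 e5 e6 e7
    rw [e5] at e0
    rw [e6] at e1
    rw [e7] at e3
    obtain ⟨⟨p0, q0⟩, ⟨p1, q1⟩, ⟨p2, q2⟩, ⟨p3, q3⟩, p4, q4⟩ := And.intro (g1 k 0 (by simp))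
      (And.intro (g1 k 1 (by simp)) (And.intro (g1 k 2 (by simp)) (And.intro (g1 k 3 (by simp))
        (g1 k 4 (by simp)))))
    have w0 := (h1.1 (k, 0)).1
    have a0 : w (k, 1) ≤ w (k, 0) := by nlinarith [(h1.1 (k, 1)).2]
    have a1 : w (k, 2) ≤ w (k, 1) := by nlinarith [(h1.1 (k, 2)).2]
    have a2 : w (k, 4) ≤ w (k, 0) := by nlinarith
    have a3 : w (k, 0) - (g (k, 2) + g (k, 4)) / 2000 ≤ (1 - g (k, 2)) * w (k, 4) := by
      rw [e4]
      nlinarith [mul_nonneg (mul_nonneg p2 p4) w0]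
    have a4 : w (k, 2) = (1 - g (k, 2)) * w (k, 4) + (1 - g (k, 2)) * g (k, 3) * (1 - w (k, 4)) := by
      rw [e2, e3]
      ring
    have a5 := mul_nonneg (sub_nonneg.2 q2) p3
    have a6 : 0 ≤ (1 - g (k, 2)) * g (k, 3) * (1 - w (k, 4)) := mul_nonneg a5 (by linarith)
    refine ⟨by nlinarith, by nlinarith, by nlinarith⟩
  have L2 : ∀ k, g (k, 4) ≤ 10 * g (k, 2) ∧ g (k, 3) ≤ 10 * g (k, 2) := fun k => by
    obtain ⟨w, h1, h2⟩ := sol hs.1 (k, 2)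
    have h3 : w (k, 0) ≤ 51 / 100 := by
      have a1 := single_le_sum (f := fun l => w (l, 0)) (fun l _ => (h1.1 _).1) (mem_univ k)
      have a2 := hy (k, 2)
      simp only [yn, Matrix.cons_val] at a2
      rw [h2, show (((2 * (n + 1) : ℕ) : ℝ))⁻¹ = 1 / 2 / (n + 1) by push_cast; field_simp,
        ← add_div, div_le_div_iff_of_pos_right m0] at a2
      linarith
    obtain ⟨e0, e1, e2, e3, e4, -⟩ := h1.eqs k
    simp [rn, hg] at e0 e1 e2 e3 e4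
    obtain ⟨⟨p0, q0⟩, ⟨p1, q1⟩, ⟨p2, q2⟩, ⟨p3, q3⟩, p4, q4⟩ := And.intro (g1 k 0 (by simp))
      (And.intro (g1 k 1 (by simp)) (And.intro (g1 k 2 (by simp)) (And.intro (g1 k 3 (by simp))
        (g1 k 4 (by simp)))))
    obtain ⟨l1, l2, l3⟩ := L1 k
    have a0 := cv ⟨p0, q0⟩ (h1.1 (k, 1)) (h1.1 (k, 5)).1
    have a1 := cv ⟨p1, q1⟩ (h1.1 (k, 2)) (h1.1 (k, 6)).1
    have a2 := cv ⟨p2, q2⟩ (h1.1 (k, 3)) le_rfl
    have a3 := cv ⟨p3, q3⟩ (h1.1 (k, 4)) (h1.1 (k, 7)).1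
    have a4 := mul_le_mul_of_nonneg_left h3 p4
    rcases le_total (g (k, 2)) (1 / 10) with h | h
    · have := mul_le_mul_of_nonneg_left h p3
      constructor <;> linarith
    · constructor <;> linarith
  have L3 : ∀ k, k ≠ Fin.last n → g (k + 1, 2) ≤ g (k, 2) ^ 2 / 2 := fun k hk => by
    obtain ⟨w, h1, h2⟩ := dev hs (k, 0)
    have k1 := ne_succ hn k
    have k2 := ne_pred hn k
    have h3 : w (k, 0) + w (k + 1, 0) ≤ 1 + 1 / 2000 := by
      have a1 := sum_le_sum_of_subset_of_nonneg (f := fun l => w (l, 0)) (subset_univ {k, k + 1})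
        fun l _ _ => (h1.1 _).1
      rw [sum_pair k1.symm] at a1
      have a2 := hy (k, 0)
      simp only [yn, Matrix.cons_val] at a2
      rw [show (((n + 1 : ℕ) : ℝ))⁻¹ = 1 / (n + 1) by push_cast; field_simp, ← add_div] at a2
      have := (div_le_div_iff_of_pos_right m0).1 (h2.trans (add_le_add_left a2 _) |>.trans_eq
        (add_div _ _ _).symm)
      linarith
    obtain ⟨e0, e1, e2, e3, e4, e5, e6, -⟩ := h1.eqs k
    obtain ⟨f0, f1, f2, f3, -, -, -, f7⟩ := h1.eqs (k + 1)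
    simp [own, rn, hg, hk, k1, k1.symm, k2] at e0 e1 e2 e3 e4 e5 e6 f0 f1 f2 f3 f7
    obtain ⟨l1, -⟩ := L1 k
    obtain ⟨l2, l3, -⟩ := L1 (k + 1)
    obtain ⟨l4, l5⟩ := L2 k
    have r2 := g1 (k + 1) 2 (by simp)
    have r4 := g1 (k + 1) 4 (by simp)
    have w0 := h1.1 (k, 0)
    have a0 := cv1 (g1 k 6 (by simp)) (h1.1 (k + 1, 2)).2
    have a1 := cv1 (g1 k 5 (by simp)) (h1.1 (k, 2)).2
    have a2 := cv (g1 k 2 (by simp)) (h1.1 (k, 3)) (v := 2⁻¹) (by norm_num)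
    have a3 := cv (g1 k 3 (by simp)) (h1.1 (k, 4)) (h1.1 (k, 7)).1
    have a4 := cv (g1 k 4 (by simp)) w0 (v := 2⁻¹) (by norm_num)
    have a5 := cv1 (g1 (k + 1) 7 (by simp)) w0.2
    have a6 := mul_le_mul_of_nonneg_left (a5.trans_eq (f3.trans f7).symm) (sub_nonneg.2 r2.2)
    have a7 := cv (g1 (k + 1) 0 (by simp)) (h1.1 (k + 1, 1)) (h1.1 (k + 1, 5)).1
    have a8 := cv (g1 (k + 1) 1 (by simp)) (h1.1 (k + 1, 2)) (h1.1 (k + 1, 6)).1
    have a9 := cv1 r2 w0.2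
    have b0 := mul_le_mul_of_nonneg_left (show w (k, 0) ≤ 51 / 100 by linarith) r2.1
    exact R3 (g1 k 0 (by simp)).1 (by linarith [g1 k 2 (by simp), g1 k 4 (by simp)]) (by linarith)
      r2.1 e0 (by linarith) (by linarith)
  rw [show ((Fin.last n, 8) : X n) = b (Fin.last n, 2) from rfl, hg]
  constructor
  · refine (g1 _ 2 (by simp)).1.lt_of_ne fun h => ?_
    have a1 := sup (s := s) (q := (Fin.last n, 3)) hs.1 (fun _ _ _ => rfl)
      (fun x => if x = (Fin.last n, 8) then 1 else 0) (fun x => by positivity)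
      (fun x _ => by
        by_cases h : x.1 = Fin.last n ∧ x.2 = 8 <;> simp [rn, Prod.ext_iff, h])
      fun ⟨k, t⟩ ht => by
        rw [hg]
        fin_cases t <;> simp [own, a, b] at ht ⊢
        split_ifs with h1
        · rw [h1, ← h]
        · rfl
    have a2 := hx (Fin.last n, 3)
    simp only [xn, Matrix.cons_val] at a2
    rw [show (((2 * (n + 1) : ℕ) : ℝ))⁻¹ = 1 / 2 / (n + 1) by push_cast; field_simp,
      ← sub_div] at a2
    have := (div_le_div_iff_of_pos_right m0).1 (a2.trans a1)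
    simp at this
    norm_num at this
  · have : ∀ k : Fin (n + 1), g (k, 2) ≤ 2 / 2 ^ 2 ^ (k : ℕ) := fun k => by
      induction k using Fin.induction with
      | zero => simpa using (g1 0 2 (by simp)).2
      | succ i ih =>
        rw [← Fin.coeSucc_eq_succ]
        refine (L3 _ (Fin.castSucc_lt_last i).ne).trans ?_
        rw [Fin.coeSucc_eq_succ, Fin.val_succ, pow_succ 2 (i : ℕ), pow_mul]
        refine (div_le_div_of_nonneg_right (pow_le_pow_left₀ (g1 _ 2 (by simp)).1 ih 2)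
          zero_le_two).trans_eq ?_
        simp only [Fin.val_castSucc]
        field_simp
    simpa using this (Fin.last n)

end Pool.Agent.H.MP_3b7dc8_lc
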