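import Pool.Agent.H.MP_3b7dc8_lc.C

namespace Pool.Agent.H.MP_3b7dc8_lc

open Finset

variable {n : ℕ}

noncomputable def Y : ℕ → ℝ
  | 0 => 1 / 8000
  | j + 1 => (Y j / 8000) ^ 2

theorem Y_bd (j : ℕ) : 0 < Y j ∧ Y j ≤ 1 / 8000 := by
  induction j with
  | zero => norm_num [Y]
  | succ j ih =>
    rw [Y]
    exact ⟨by have := ih.1; positivity, by nlinarith [ih.1, ih.2]⟩

theorem z_bd (j : ℕ) : Y j ≤ Y j / (1 - Y j) ∧ Y j / (1 - Y j) ≤ 1 := by
  have := Y_bd j
  rw [le_div_iff₀ (by linarith), div_le_one (by linarith)]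
  exact ⟨by nlinarith, by linarith⟩

noncomputable def g0 (x : X n) : ℝ :=
  if x.2 = 0 then Y x.1 / 8000 else if x.2 = 2 then Y x.1 else
    if x.2 = 4 then Y x.1 / (1 - Y x.1) else 0

theorem g0_bd (x : X n) : 0 ≤ g0 x ∧ g0 x ≤ 1 := by
  have := Y_bd x.1
  have := z_bd x.1
  unfold g0
  split_ifs <;> constructor <;> linarith

theorem E0 (hn : 1 ≤ n) (q : Pl n) : (GG n).E (fun _ => mk g0) q =
    (if q.2 = 0 then if q.1 = Fin.last n then 0 else 1 else
      if q.2 = 2 ∨ q.2 = 3 then 1 / 2 else 0) / (n + 1) := by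
  obtain ⟨w, h1, h2⟩ := sol (mk_strat (n := n) g0_bd) q
  have : ∀ k, w (k, 0) = ((rn (k, 8) q : ℝ)⁻¹ + (rn (k, 9) q : ℝ)⁻¹) / 2 := fun k => by
    obtain ⟨e0, e1, e2, e3, e4, e5, -⟩ := h1.eqs k
    simp [mk_b, g0] at e0 e1 e2 e3 e4 e5
    have := Y_bd k
    have a : 1 - Y k ≠ 0 := by linarith
    rw [e3, e4, e0, e1, e5] at e2
    rw [e0, e1, e5]
    refine mul_left_cancel₀ this.1.ne' ?_
    generalize (rn (k, 8) q : ℝ)⁻¹ = A at *
    generalize (rn (k, 9) q : ℝ)⁻¹ = B at *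
    field_simp at e2
    linarith
  rw [h2]
  congr 1
  simp only [this]
  obtain ⟨k, j⟩ := q
  have k1 := ne_succ hn k
  fin_cases j
  · by_cases h : k = Fin.last n
    · simp [rn, h]
    · have : ∀ l, ((rn (l, 8) (k, 0) : ℝ)⁻¹ + (rn (l, 9) (k, 0) : ℝ)⁻¹) / 2 =
          (if l = k then 1 / 2 else 0) + if l = k + 1 then 1 / 2 else 0 := fun l => by
        by_cases h1 : l = k
        · simp [rn, h, h1, k1.symm]
        · by_cases h2 : l = k + 1 <;> simp [rn, h, h1, h2, k1]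
      simp only [Fin.zero_eta, this, sum_add_distrib]
      simp [h]
      norm_num
  all_goals simp [rn, apply_ite, ite_div]

theorem NE0 (hn : 1 ≤ n) : (GG n).IsNE (1 / 4000 / (n + 1)) (mk g0) := by
  refine ⟨mk_strat g0_bd, fun ⟨k, j⟩ τ hτ e => ?_⟩
  have m0 : (0 : ℝ) < n + 1 := by positivity
  have k1 := ne_succ hn k
  have k2 := ne_pred hn k
  have yk := Y_bd k
  have zk := z_bd k
  by_cases h : j = 2 ∨ j = 3
  · obtain ⟨w, h1, h2⟩ := sol (mk_strat (n := n) g0_bd) (k, j)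
    refine (sup hτ e w (fun x => (h1.1 x).1) (fun x h => (h1.2.1 x h).ge) fun ⟨l, t⟩ ht => ?_).trans
      (h2 ▸ le_add_of_nonneg_right (by positivity))
    rw [if_neg fun h3 => ?_]
    · exact (h1.2.2 _ ht).ge
    · have := congrArg Prod.snd h3
      simp only [own] at this
      rcases h with rfl | rfl <;> revert this <;> clear * - t <;> revert t <;> decide
  rw [E0 hn, ← add_div]
  by_cases h1 : j = 4 ∨ (j = 0 ∧ k = Fin.last n)
  · refine (sup hτ e 0 (fun _ => le_rfl) (fun ⟨l, t⟩ ht => ?_) fun x _ => by simp).trans ?_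
    · rcases h1 with rfl | ⟨rfl, rfl⟩
      · simp [rn, show t ≠ 0 from fun h => ht (by simp [h])]
      · simp [rn]
    · simp only [Pi.zero_apply, sum_const_zero, zero_div]
      positivity
  by_cases h2 : j = 1
  · subst h2
    refine (sup hτ e (fun x => if x.2 = 6 ∨ x.2 = 7 then 1 else if x.1 = k then
      ![(Y k + 1) / 8000, 1 / 8000, 1 / 8000, (Y k + 1) / 8000, (Y k + 1) / 8000, 1, 1, 1, 0, 0, 1]
        x.2 else 0) (fun ⟨l, t⟩ => ?_) (fun ⟨l, t⟩ ht => ?_) fun ⟨l, t⟩ ht => ?_).trans ?_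
    · by_cases hl : l = k <;> fin_cases t <;> simp [hl] <;> linarith
    · by_cases hl : l = k <;> fin_cases t <;> simp [hl, rn] at ht ⊢
    · rw [mk_b]
      by_cases hl : l = k <;> fin_cases t <;> simp [hl, own, a, b, g0, k1, k2] at ht ⊢ <;>
        (try split_ifs) <;> nlinarith
    · simp [div_le_div_iff_of_pos_right m0]
      linarith
  obtain rfl : j = 0 := by
    clear * - h h1 h2
    fin_cases j <;> simp at h h1 h2 ⊢
  have hk : k ≠ Fin.last n := by simpa using h1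
  have y1 : Y (k + 1 : Fin (n + 1)) = (Y k / 8000) ^ 2 := by
    rw [Fin.val_add_one_of_lt (Fin.lt_last_iff_ne_last.2 hk), Y]
  have yk' := Y_bd (k + 1 : Fin (n + 1))
  have zk' := z_bd (k + 1 : Fin (n + 1))
  obtain ⟨w, hw⟩ : ∃ w : ℝ, w = 4001 / 8000 := ⟨_, rfl⟩
  obtain ⟨y, hy⟩ : ∃ y, y = Y (k + 1 : Fin (n + 1)) := ⟨_, rfl⟩
  let W : X n → ℝ := fun x => if x.1 = k then
      ![w - y, w, w - Y k / 8000, w, w, w - Y k / 8000, w, 1, 1 / 2, 1 / 2, 1] x.2
    else if x.1 = k + 1 then ![w, w, w, w - y / 2, w - y / 2, w, 1, w - y, 1, 0, 1] x.2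
    else if x.2 = 6 ∨ x.2 = 7 then 1 else 0
  have W1 : ∀ x, 0 ≤ W x ∧ W x ≤ 1 := fun ⟨l, t⟩ => by
    simp only [W]
    split_ifs
    · fin_cases t <;> simp <;> (try constructor) <;> linarith
    · fin_cases t <;> simp <;> (try constructor) <;> linarith
    all_goals simp
  refine (sup hτ e W (fun x => (W1 x).1) (fun ⟨l, t⟩ ht => ?_) fun ⟨l, t⟩ ht => ?_).trans ?_
  · by_cases hl : l = k
    · fin_cases t <;> simp [W, hl, rn, hk, k1.symm] at ht ⊢
    · by_cases hl' : l = k + 1 <;> fin_cases t <;> simp [W, hl, hl', rn, hk, k1] at ht ⊢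
  · rw [mk_b]
    have a1 := (W1 (l + 1, 2)).2
    have a2 := (W1 (l - 1, 0)).2
    by_cases hl : l = k
    · subst hl
      fin_cases t <;> simp [W, own, a, b, g0, k1, k2] at ht a2 ⊢ <;> (try exact a2) <;> nlinarith
    · by_cases hl' : l = k + 1
      · subst hl'
        rw [← hy] at zk' yk'
        fin_cases t <;> simp [W, own, a, b, g0, k1, ← hy] at ht a1 ⊢ <;> (try exact a1) <;>
          (try constructor) <;> nlinarith
      · have : l - 1 ≠ k := fun h => hl' (by rw [← h, sub_add_cancel])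
        fin_cases t <;> simp [W, own, a, b, g0, hl, hl', this] at ht a1 a2 ⊢ <;> assumption
  · have : ∀ l, W (l, 0) = (if l = k then w - y else 0) + if l = k + 1 then w else 0 := fun l => by
      by_cases h1 : l = k
      · simp [W, h1, k1.symm]
      · simp [W, h1]
    simp [this, sum_add_distrib, hk, div_le_div_iff_of_pos_right m0]
    linarith

end Pool.Agent.H.MP_3b7dc8_lc
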